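import Pool.Agent.SCG.Auto3
import Pool.Agent.SCG.HTP3

/-!
Problem MP_84f0c5_lc.  Semi-conditional grammars of degree `(1, 1)` and two-way nondeterministic
multihead finite automata: a language which is closed under permutations of the letters of its words,
and does not contain the empty word, is generated by a propagating simple semi-conditional grammar of
degree `(1, 1)` if and only if it is generated by a propagating semi-conditional grammar of degree
`(1, 1)`, if and only if it is the commutative closure of the language of such a grammar, if and only
if it is accepted by a two-way nondeterministic multihead finite automaton.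

The grammars (`Rule`, `Grammar`, `Step`, `Derives`, `Gen`, `lang`, `Degree`, `Simple`, `Propagating`) and
the commutative closure `comm` are defined in `Pool.Agent.SCG.Defs`, the automata (`FA`, all heads start
on the left endmarker, acceptance by reaching an accepting state) in
`Pool.Agent.Lib_helper16.Heads.Defs`.
-/

set_option autoImplicit false

open Pool.Agent.Heads Pool.Agent.SCG

/-- Let `T` be a finite alphabet and `L` a language over `T` which contains with a word all the
rearrangements of its letters, and does not contain the empty word.  The following are equivalent: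
(1) `L` is generated by a propagating simple semi-conditional grammar of degree `(1, 1)`;
(2) `L` is generated by a propagating semi-conditional grammar of degree `(1, 1)`;
(3) `L` is the commutative closure of the language of a propagating semi-conditional grammar of degree
`(1, 1)`;
(4) `L` is accepted by a two-way nondeterministic finite automaton with `k` heads, for some `k`. -/
theorem Pool.Agent.Results.MP_84f0c5_lc.DegreeOneOnePower.result
    (T : Type) [Finite T] (L : Set (List T))
    (hL : ∀ w w' : List T, w.Perm w' → w ∈ L → w' ∈ L) (hL0 : [] ∉ L) :
    List.TFAE [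
      ∃ G : Grammar T, G.Propagating ∧ G.Simple ∧ G.Degree 1 1 ∧ G.lang = L,
      ∃ G : Grammar T, G.Propagating ∧ G.Degree 1 1 ∧ G.lang = L,
      ∃ G : Grammar T, G.Propagating ∧ G.Degree 1 1 ∧ comm G.lang = L,
      ∃ (k : ℕ) (M : FA T k), M.lang = L] := by
  tfae_have 1 → 2 := fun ⟨G, h1, _, h3, h4⟩ => ⟨G, h1, h3, h4⟩
  tfae_have 2 → 3 := fun ⟨G, h1, h2, h3⟩ => ⟨G, h1, h2, by
    rw [h3]
    refine Set.Subset.antisymm ?_ fun w hw => ⟨w, hw, List.Perm.refl w⟩
    rintro w ⟨w', hw', h⟩
    exact hL w' w h hw'⟩
  tfae_have 3 → 4 := fun ⟨G, h1, h2, h3⟩ => by
    obtain ⟨k, M, hM⟩ := exists_heads G h1 h2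
    exact ⟨k, M, hM.trans h3⟩
  tfae_have 4 → 1 := fun ⟨k, M, hM⟩ => by
    obtain ⟨P, hP⟩ := exists_prog M (by rw [hM]; exact hL) (by rw [hM]; exact hL0)
    obtain ⟨G, h1, h2, h3, h4⟩ := exists_simple P
    exact ⟨G, h1, h2, h3, h4.trans (hP.trans hM)⟩
  tfae_finish
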