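import Pool.Agent.UDG.All

/-!
Problem MP_84f0c5_lc, Q2.  Every recursively enumerable language, over an arbitrary finite alphabet, is
generated by a simple semi-conditional grammar of degree `(1, 1)` with at most 18 nonterminals and at
most 13 conditional rules (the numbers do not depend on the language, nor on the alphabet); conversely
the language of every semi-conditional grammar of degree `(1, 1)` is recursively enumerable.  And there
is a language of a simple semi-conditional grammar of degree `(1, 1)`, over one letter and without the
empty word, which is not generated by any propagating semi-conditional grammar of degree `(1, 1)`.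

The grammars (`Rule`, `Grammar`, `Step`, `Derives`, `Gen`, `lang`, `Degree`, `Simple`, `Propagating`) are
defined in `Pool.Agent.SCG.Defs`; `REPred` is Mathlib's predicate for recursively enumerable sets.
-/

set_option autoImplicit false

open Pool.Agent.SCG

/-- (1) A language `L` over the alphabet `Fin k` is recursively enumerable if and only if it is generated
by a simple semi-conditional grammar of degree `(1, 1)` with at most 18 nonterminals and at most 13 rules
with a condition.
(2) The language of every semi-conditional grammar of degree `(1, 1)` over `Fin k` (simple or not, with
any number of nonterminals and rules) is recursively enumerable.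
(3) There is a language over one letter, without the empty word, which is generated by a simple
semi-conditional grammar of degree `(1, 1)`, but by no propagating semi-conditional grammar of degree
`(1, 1)`. -/
theorem Pool.Agent.Results.MP_84f0c5_lc.UniversalBounds.result :
    (∀ (k : ℕ) (L : Set (List (Fin k))),
      REPred (fun w => w ∈ L) ↔
        ∃ G : Grammar (Fin k), G.Simple ∧ G.Degree 1 1 ∧ Nat.card G.N ≤ 18 ∧
          {r ∈ G.rules | r.perm ≠ none ∨ r.forb ≠ none}.ncard ≤ 13 ∧ G.lang = L) ∧
    (∀ (k : ℕ) (G : Grammar (Fin k)), G.Degree 1 1 → REPred (fun w => w ∈ G.lang)) ∧
    ∃ L : Set (List (Fin 1)), [] ∉ L ∧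
      (∃ G : Grammar (Fin 1), G.Simple ∧ G.Degree 1 1 ∧ G.lang = L) ∧
      ∀ G : Grammar (Fin 1), G.Propagating → G.Degree 1 1 → G.lang ≠ L :=
  ⟨Pool.Agent.UDG.all_MAIN, Pool.Agent.UDG.t_REC, Pool.Agent.UDG.all_PRO⟩
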